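import Pool.Agent.Cohn2.Main

/-!
The equation `(a^n - 1)(b^n - 1) = x^2` has no solution, whatever the exponent `n ≥ 1`, for all pairs
`2 ≤ a < b ≤ X` with at most `X^(23/12)` exceptions, for all large `X`.
-/

namespace Pool.Agent.Results.MP_4ba7fc_nt.AlmostAllPairs

open Finset Filter

theorem result : ∃ X₀ : ℕ, ∀ X : ℕ, X₀ ≤ X →
    (Nat.card {x : ℕ × ℕ // 2 ≤ x.1 ∧ x.1 < x.2 ∧ x.2 ≤ X ∧
      ∃ n : ℕ, 1 ≤ n ∧ ∃ y : ℕ, (x.1 ^ n - 1) * (x.2 ^ n - 1) = y ^ 2} : ℝ) ≤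
      (X : ℝ) ^ (23 / 12 : ℝ) := by
  classical
  obtain ⟨X₀, h⟩ := eventually_atTop.1 Pool.Agent.Cohn2.almost_all
  refine ⟨X₀, fun X hX => le_trans ?_ (h X hX)⟩
  rw [Nat.cast_le]
  have hinj : ∀ x : {x : ℕ × ℕ // 2 ≤ x.1 ∧ x.1 < x.2 ∧ x.2 ≤ X ∧
      ∃ n : ℕ, 1 ≤ n ∧ ∃ y : ℕ, (x.1 ^ n - 1) * (x.2 ^ n - 1) = y ^ 2},
      x.1 ∈ (range (X + 1) ×ˢ range (X + 1)).filter fun x => Cohn2.IsSol x.1 x.2 := by
    rintro ⟨⟨a, b⟩, h2, hab, hb, n, hn, y, hy⟩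
    simp only at h2 hab hb hy ⊢
    rw [mem_filter, mem_product, mem_range, mem_range]
    refine ⟨⟨by simp only; omega, by simp only; omega⟩, h2, by simp only; omega, n, hn, y, ?_⟩
    have ha1 : 1 ≤ a ^ n := Nat.one_le_pow _ _ (by omega)
    have hb1 : 1 ≤ b ^ n := Nat.one_le_pow _ _ (by omega)
    have := congrArg (fun t : ℕ => (t : ℤ)) hy
    simp only at this ⊢
    push_cast [ha1, hb1] at this
    exact this
  obtain ⟨S, hS⟩ : ∃ S : Finset (ℕ × ℕ), S = (range (X + 1) ×ˢ range (X + 1)).filter fun x =>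
      Cohn2.IsSol x.1 x.2 := ⟨_, rfl⟩
  rw [← hS] at hinj ⊢
  have h1 := Nat.card_le_card_of_injective
    (fun x : {x : ℕ × ℕ // 2 ≤ x.1 ∧ x.1 < x.2 ∧ x.2 ≤ X ∧
      ∃ n : ℕ, 1 ≤ n ∧ ∃ y : ℕ, (x.1 ^ n - 1) * (x.2 ^ n - 1) = y ^ 2} => (⟨x.1, hinj x⟩ : S))
    (fun x y hxy => Subtype.ext (congrArg (fun t : S => t.1) hxy))
  rwa [Nat.card_eq_fintype_card (α := S), Fintype.card_coe] at h1

end Pool.Agent.Results.MP_4ba7fc_nt.AlmostAllPairs
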