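import Pool.Agent.CDZ.Main

/-!
# The equation `(a ^ n - 1) (b ^ n - 1) = x ^ 2`: the possible `b` have density zero
-/

set_option autoImplicit false

namespace Pool.Agent.Results.MP_4ba7fc_nt.DensityZero

open Filter Topology

/-- The numbers `b ≤ X` which occur as the larger base of a solution with exponent `n`. -/
def solvable (n X : ℕ) : Set ℕ :=
  {b : ℕ | b ≤ X ∧ ∃ a x : ℕ, 2 ≤ a ∧ a < b ∧ 1 ≤ x ∧ (a ^ n - 1) * (b ^ n - 1) = x ^ 2}

/-- For every `n ≥ 2` the set of `b` which occur in a solution has natural density zero. -/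
theorem result : ∀ n : ℕ, 2 ≤ n →
    Tendsto (fun X : ℕ => ((solvable n X).ncard : ℝ) / X) atTop (𝓝 0) :=
  Pool.Agent.CDZ.main_t

end Pool.Agent.Results.MP_4ba7fc_nt.DensityZero
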