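import Mathlib
import Pool.Agent.CFB.Main

/-!
Fix `a ≥ 2`.  Every interval of `X` consecutive natural numbers (`X` large in terms of `a` only) contains at
most `X^(1-δ)` numbers `b ≥ 2` for which some exponent `n ≥ 1` and some `c ≤ X^δ` give
`(a^n - 1)(b^n - 1) = c y^2`.  The constant `δ > 0` does not depend on `a`.
-/

set_option autoImplicit false

namespace Pool.Agent.Results.MP_4ba7fc_nt.FixedBase

open Finset Filter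

theorem result : ∃ δ : ℝ, 0 < δ ∧ ∀ a : ℕ, 2 ≤ a → ∃ X₀ : ℕ, ∀ X Y : ℕ, X₀ ≤ X →
    (Nat.card {b : ℕ // 2 ≤ b ∧ Y < b ∧ b ≤ Y + X ∧
      ∃ n c y : ℕ, 1 ≤ n ∧ 1 ≤ c ∧ (c : ℝ) ≤ (X : ℝ) ^ δ ∧
        (a ^ n - 1) * (b ^ n - 1) = c * y ^ 2} : ℝ) ≤ (X : ℝ) ^ (1 - δ) := by
  classical
  obtain ⟨δ, hδ, h⟩ := Pool.Agent.CFB.main
  refine ⟨δ, hδ, fun a ha => ?_⟩
  obtain ⟨X₀, h₀⟩ := eventually_atTop.1 (h a ha)
  refine ⟨X₀, fun X Y hX => le_trans ?_ (h₀ X hX Y)⟩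
  rw [Nat.cast_le]
  obtain ⟨S, hS⟩ : ∃ S : Finset ℕ, S = (range (X + 1)).filter fun b => ∃ c : ℕ, 1 ≤ c ∧
      (c : ℝ) ≤ (X : ℝ) ^ δ ∧ CFB.Sol a c (Y + b) := ⟨_, rfl⟩
  have hinj : ∀ b : {b : ℕ // 2 ≤ b ∧ Y < b ∧ b ≤ Y + X ∧
      ∃ n c y : ℕ, 1 ≤ n ∧ 1 ≤ c ∧ (c : ℝ) ≤ (X : ℝ) ^ δ ∧
        (a ^ n - 1) * (b ^ n - 1) = c * y ^ 2}, b.1 - Y ∈ S := by
    rintro ⟨b, hb2, hY, hYX, n, c, y, hn, hc1, hcX, hy⟩
    rw [hS, mem_filter, mem_range]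
    refine ⟨by simp only; omega, c, hc1, hcX, ?_⟩
    have e : Y + (b - Y) = b := by omega
    rw [e]
    refine ⟨hb2, n, hn, y, ?_⟩
    have ha1 : 1 ≤ a ^ n := Nat.one_le_pow _ _ (by omega)
    have hb1 : 1 ≤ b ^ n := Nat.one_le_pow _ _ (by omega)
    have := congrArg (fun t : ℕ => (t : ℤ)) hy
    push_cast [ha1, hb1] at this
    exact this
  rw [← hS]
  have h1 := Nat.card_le_card_of_injective
    (fun b : {b : ℕ // 2 ≤ b ∧ Y < b ∧ b ≤ Y + X ∧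
      ∃ n c y : ℕ, 1 ≤ n ∧ 1 ≤ c ∧ (c : ℝ) ≤ (X : ℝ) ^ δ ∧
        (a ^ n - 1) * (b ^ n - 1) = c * y ^ 2} => (⟨b.1 - Y, hinj b⟩ : S))
    (fun x y hxy => by
      have h2 := congrArg (fun t : S => t.1) hxy
      simp only at h2
      have h3 := x.2.2.1
      have h4 := y.2.2.1
      exact Subtype.ext (by omega))
  rwa [Nat.card_eq_fintype_card (α := S), Fintype.card_coe] at h1

end Pool.Agent.Results.MP_4ba7fc_nt.FixedBase
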